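import Pool.Agent.H94.RTB.Targets2
import Pool.Agent.H85.RTX.Final

/-!
# Return times for linear averages, R_EIG: characters are good weights
-/

namespace Pool.Agent.H17.RTB

open Pool.Agent.H94.RTB MeasureTheory Filter Topology Finset
open scoped ComplexConjugate NNReal

universe u v

theorem iter_eq {X : Type u} (T : X → X) (θ : UnitAddCircle) (n : ℕ) (x : X)
    (t : UnitAddCircle) : (fun p : X × UnitAddCircle => (T p.1, p.2 + θ))^[n] (x, t) =
      (T^[n] x, t + n • θ) := by
  induction n with
  | zero => simp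
  | succ n ih =>
    rw [Function.iterate_succ_apply', ih, Function.iterate_succ_apply', succ_nsmul, add_assoc]

theorem pf_EIG : T_EIG.{u} := by
  intro ζ hζ X _ μ _ T hT F hF hF1
  have hprob : IsProbabilityMeasure (volume : Measure UnitAddCircle) :=
    ⟨UnitAddCircle.measure_univ⟩
  obtain ⟨a, ha⟩ := (Complex.norm_eq_one_iff ζ).1 hζ
  set θ : UnitAddCircle := ((a / (2 * Real.pi) : ℝ) : UnitAddCircle) with hθ
  have hfour : fourier 1 θ = ζ := by
    rw [hθ, fourier_coe_apply, ← ha]
    congr 1
    have hpi : (Real.pi : ℂ) ≠ 0 := by exact_mod_cast Real.pi_ne_zero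
    push_cast
    field_simp
  let S : (X × UnitAddCircle) ≃ᵐ (X × UnitAddCircle) :=
    T.prodCongr (MeasurableEquiv.addRight θ)
  have hSf : (S : X × UnitAddCircle → X × UnitAddCircle) = fun p => (T p.1, p.2 + θ) := rfl
  have hS : MeasurePreserving S (μ.prod volume) (μ.prod volume) :=
    hT.prod (measurePreserving_add_right volume θ)
  let h : X × UnitAddCircle → ℂ := fun p => F p.1 * fourier 1 p.2
  have hcont : Continuous (fourier 1 : UnitAddCircle → ℂ) := (fourier 1).continuous
  have hmeas : Measurable h := (hF.comp measurable_fst).mul (hcont.measurable.comp measurable_snd)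
  have hn1 : ∀ t : UnitAddCircle, ‖(fourier 1 t : ℂ)‖ = 1 := fun t => by
    rw [fourier_apply]
    exact Circle.norm_coe _
  have hmem : MemLp h ⊤ (μ.prod volume) := by
    refine memLp_top_of_bound hmeas.aestronglyMeasurable 1 (Eventually.of_forall fun p => ?_)
    simp only [h]
    rw [norm_mul, hn1, mul_one]
    exact hF1 _
  have hB := Pool.Agent.H85.RTX.birkhoff_complex hS hmem
  have hB2 := Measure.ae_ae_of_ae_prod hB
  filter_upwards [hB2] with x hx
  obtain ⟨t, -, l, hl⟩ := hx.exists
  have hc0 : (fourier 1 t : ℂ) ≠ 0 := by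
    intro h0
    have := hn1 t
    rw [h0, norm_zero] at this
    exact zero_ne_one this
  refine ⟨l / fourier 1 t, ?_⟩
  have h1 := hl.div_const (fourier 1 t : ℂ)
  refine h1.congr fun N => ?_
  unfold Av
  have h2 : ∀ n : ℕ, h (S^[n] (x, t)) = (ζ ^ n * F (T^[n] x)) * fourier 1 t := by
    intro n
    rw [hSf, iter_eq]
    simp only [h]
    have h3 : (fourier 1 (t + n • θ) : ℂ) = ζ ^ n * fourier 1 t := by
      have h4 : (fourier 1 (t + n • θ) : ℂ) = fourier 1 t * fourier 1 (n • θ) := by
        simp only [fourier_apply, one_zsmul, AddCircle.toCircle_add, Circle.coe_mul]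
      have h5 : (fourier 1 (n • θ) : ℂ) = (fourier 1 θ) ^ n := by
        simp only [fourier_apply, one_zsmul, AddCircle.toCircle_nsmul, Circle.coe_pow]
      rw [h4, h5, hfour, mul_comm]
    rw [h3]
    ring
  simp only [h2]
  rw [← Finset.sum_mul]
  field_simp

end Pool.Agent.H17.RTB
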